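import Pool.Agent.Work.MP_39d092_co.PD.Flats

set_option autoImplicit false
open Matrix

namespace Pool.Agent.Results.MP_39d092_co.AffinePieces

/-- `f` is piecewise affine along `H`: the space `F_2^n` is a disjoint union of flats `x + E x` whose directions
`E x` are subspaces of `H` of dimension at least `n/2 - 1`, and `f` is affine on each of these flats. -/
def AffineOnFlats {n : ℕ} (H : Submodule (ZMod 2) (Fin n → ZMod 2)) (f : (Fin n → ZMod 2) → ZMod 2) : Prop :=
  ∃ E : (Fin n → ZMod 2) → Submodule (ZMod 2) (Fin n → ZMod 2),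
    ∀ x, E x ≤ H ∧ n / 2 - 1 ≤ Module.finrank (ZMod 2) (E x) ∧ ∀ d ∈ E x, E (x + d) = E x ∧
      ∀ d' ∈ E x, f (x + d + d') + f (x + d) + f (x + d') + f x = 0

/-- `f` is piecewise divisible for the linear map `L` onto `F_2^4`: on each of the sixteen fibres of `L` all
character sums of `f` are divisible by `2^(n/2-1)`. -/
def DivisibleOnFibres {n : ℕ} (L : (Fin n → ZMod 2) →ₗ[ZMod 2] (Fin 4 → ZMod 2))
    (f : (Fin n → ZMod 2) → ZMod 2) : Prop :=
  ∀ (u : Fin n → ZMod 2) (t : Fin 4 → ZMod 2), (2 : ℤ) ^ (n / 2 - 1) ∣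
    ∑ x ∈ Finset.univ.filter (fun x : Fin n → ZMod 2 => L x = t), (-1 : ℤ) ^ (f x + u ⬝ᵥ x).val

/-- Let `n ≥ 2` be even and `F : F_2^n → F_2^n`. In each of the following cases `nl(F) ≤ 2^(n-1) - 2^(n/2)`, that is,
some nonzero component agrees with some affine function outside a set of at most `2^(n-1) - 2^(n/2)` inputs.

1. `F` is affine on every coset of some subspace of dimension at least `n/2 - 1`.
2. There are a linear map `L` onto `F_2^4` and a set `X` of at most `2^n/32` vectors such that for every nonzero `v`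
   outside `X` the component `v·F` is affine on each member of some partition of `F_2^n` into flats of dimension at
   least `n/2 - 1` with directions in the kernel of `L`, or at least its character sums over the sixteen fibres of `L`
   are divisible by `2^(n/2-1)`. -/
theorem result (n : ℕ) (hn : 2 ≤ n) (he : Even n) (F : (Fin n → ZMod 2) → (Fin n → ZMod 2))
    (hF : (∃ E : Submodule (ZMod 2) (Fin n → ZMod 2), n / 2 - 1 ≤ Module.finrank (ZMod 2) E ∧
        ∀ x, ∀ d ∈ E, ∀ d' ∈ E, F (x + d + d') + F (x + d) + F (x + d') + F x = 0) ∨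
      ∃ (L : (Fin n → ZMod 2) →ₗ[ZMod 2] (Fin 4 → ZMod 2)) (X : Finset (Fin n → ZMod 2)),
        Function.Surjective L ∧ 32 * X.card ≤ 2 ^ n ∧
        ∀ v : Fin n → ZMod 2, v ≠ 0 → v ∉ X →
          AffineOnFlats (LinearMap.ker L) (fun x => v ⬝ᵥ F x) ∨ DivisibleOnFibres L (fun x => v ⬝ᵥ F x)) :
    ∃ v : Fin n → ZMod 2, v ≠ 0 ∧ ∃ (a : Fin n → ZMod 2) (c : ZMod 2),
      (Finset.univ.filter (fun x : Fin n → ZMod 2 => v ⬝ᵥ F x ≠ a ⬝ᵥ x + c)).card ≤
        2 ^ (n - 1) - 2 ^ (n / 2) := by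
  rcases hF with ⟨E, hE, hF⟩ | ⟨L, X, hL, hX, hF⟩
  · exact Pool.Agent.Work.MP_39d092_co.PD.affine_pieces hn he F E hE hF
  · refine Pool.Agent.Work.MP_39d092_co.PD.pieces hn he F L hL X hX (fun v hv hx u t => ?_)
    rcases hF v hv hx with ⟨E, hE⟩ | h
    · rw [Pool.Agent.Work.MP_39d092_co.PD.P_concrete]
      exact Pool.Agent.Work.MP_39d092_co.PD.flats_div F L (n / 2 - 1) v u t E
        (fun x => (hE x).2.1) (fun x d hd => (hE x).1 hd) (fun x d hd => ((hE x).2.2 d hd).1)
        (fun x d hd d' hd' => ((hE x).2.2 d hd).2 d' hd')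
    · exact h u t

end Pool.Agent.Results.MP_39d092_co.AffinePieces
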