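import Pool.Agent.Work.MP_39d092_co.GBGold

/-!
# MP_39d092_co: no better function near the Gold functions

If `n` is even and the graph of `F : F_2^n → F_2^n` is carried by an affine bijection
`F_2^n × F_2^n → K × K` (`K` the field with `2^n` elements) to a set which contains at most
`2^n / 1200` points off the graph of a Gold APN function `x ^ (2^i + 1)`, `gcd(i, n) = 1`, then
`nl(F) ≤ 2^(n-1) - 2^(n/2)`.

Method: for the components `v` of the Gold function `G` which are semibent the squares of the Walsh
coefficients are `2^(n+2)` times an indicator `w(v, u)`. If all coefficients of `F` are less than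
`2^(n/2+1)`, the transform `m` of the difference of the graphs has sign opposite to that of the
transform of `G` where `w = 1`, so the sum of `w |m|` is computed exactly; it is compared with
the correlation of `m` with the transform of the removed points, whose fourth moment is small
because `G` is APN.
-/

set_option autoImplicit false

namespace Pool.Agent.Results.MP_39d092_co.GoldBall
open Matrix

theorem result (n i : ℕ) (hn : Even n) (hn0 : 0 < n) (hi : Nat.Coprime i n)
    (K : Type) [Field K] [Fintype K] [DecidableEq K] (hK : Fintype.card K = 2 ^ n)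
    (L : ((Fin n → ZMod 2) × (Fin n → ZMod 2)) ≃+ K × K) (a b : K)
    (F : (Fin n → ZMod 2) → (Fin n → ZMod 2))
    (hF : 1200 * (Finset.univ.filter (fun x : Fin n → ZMod 2 =>
      (L (x, F x)).2 + b ≠ ((L (x, F x)).1 + a) ^ (2 ^ i + 1))).card ≤ 2 ^ n) :
    ∃ v : Fin n → ZMod 2, v ≠ 0 ∧ ∃ (a : Fin n → ZMod 2) (c : ZMod 2),
      (Finset.univ.filter
        (fun x : Fin n → ZMod 2 => v ⬝ᵥ F x ≠ a ⬝ᵥ x + c)).card ≤ 2 ^ (n - 1) - 2 ^ (n / 2) :=
  Pool.MP_39d092_co.GB.gold hn hn0 hK hi L a b F hF

end Pool.Agent.Results.MP_39d092_co.GoldBall
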