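import Pool.Agent.Work.MP_39d092_co.NL.Final

set_option autoImplicit false
open Matrix

namespace Pool.Agent.Results.MP_39d092_co.QuadraticPlusCore

/-- `f` has algebraic degree at most `d`: it is the evaluation of a polynomial over `F_2` of total degree
at most `d`. -/
def DegLe {n : ℕ} (d : ℕ) (f : (Fin n → ZMod 2) → ZMod 2) : Prop :=
  ∃ p : MvPolynomial (Fin n) (ZMod 2), p.totalDegree ≤ d ∧ ∀ x, MvPolynomial.eval x p = f x

/-- `f = q + h ∘ L` with `q` of degree at most two, `L` linear from `F_2^n` to `F_2^c` and `h` a function of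
`c` variables of degree at most `d`. -/
def QuadPlusCore {n : ℕ} (c d : ℕ) (f : (Fin n → ZMod 2) → ZMod 2) : Prop :=
  ∃ (q : (Fin n → ZMod 2) → ZMod 2) (L : (Fin n → ZMod 2) →ₗ[ZMod 2] (Fin c → ZMod 2))
    (h : (Fin c → ZMod 2) → ZMod 2), DegLe 2 q ∧ DegLe d h ∧ ∀ x, f x = q x + h (L x)

/-- `f` is piecewise of the above kind: on each of the `2^j` cosets of a subspace of codimension `j` (the fibres
of the surjective linear map `L` onto `F_2^j`) it agrees with a quadratic function plus a cubic function of `c`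
linear forms. -/
def Piecewise {n : ℕ} (j c : ℕ) (f : (Fin n → ZMod 2) → ZMod 2) : Prop :=
  ∃ L : (Fin n → ZMod 2) →ₗ[ZMod 2] (Fin j → ZMod 2), Function.Surjective L ∧
    ∀ s : Fin j → ZMod 2, ∃ g : (Fin n → ZMod 2) → ZMod 2, QuadPlusCore c 3 g ∧ ∀ x, L x = s → f x = g x

/-- The component `f` belongs to one of the following classes:
* `f` is cubic and `n ≤ 10`;
* `f` has even weight (`∑ f(x) = 0`) and `n = 6`;
* `f` is a quadratic function plus a function of degree at most five of seven linear forms;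
* for some `j ≤ 3`, on each of the `2^j` cosets of a subspace of codimension `j`, `f` is a quadratic function plus
  a cubic function of `11 - 3j` linear forms (for `j = 3`: a quadratic function). -/
def Tame {n : ℕ} (f : (Fin n → ZMod 2) → ZMod 2) : Prop :=
  (n ≤ 10 ∧ DegLe 3 f) ∨ (n = 6 ∧ ∑ x, f x = 0) ∨ QuadPlusCore 7 5 f ∨ ∃ j ≤ 3, Piecewise j (11 - 3 * j) f

/-- Let `n ≥ 2` be even and let `F` be an `(n,n)`-function whose nonzero components `v·F` are all in the class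
`Tame`, except possibly those with `v` in a set `X` of fewer than `(2^n - 1)/129` vectors. Then
`nl(F) ≤ 2^(n-1) - 2^(n/2)`: some nonzero component agrees with some affine function outside a set of at most
`2^(n-1) - 2^(n/2)` inputs. -/
theorem result (n : ℕ) (hn : 2 ≤ n) (he : Even n) (F : (Fin n → ZMod 2) → (Fin n → ZMod 2))
    (X : Finset (Fin n → ZMod 2)) (hX : 129 * X.card < 2 ^ n - 1)
    (hF : ∀ v : Fin n → ZMod 2, v ≠ 0 → v ∉ X → Tame (fun x => v ⬝ᵥ F x)) :
    ∃ v : Fin n → ZMod 2, v ≠ 0 ∧ ∃ (a : Fin n → ZMod 2) (c : ZMod 2),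
      (Finset.univ.filter (fun x : Fin n → ZMod 2 => v ⬝ᵥ F x ≠ a ⬝ᵥ x + c)).card ≤
        2 ^ (n - 1) - 2 ^ (n / 2) := by
  refine Pool.Agent.Work.MP_39d092_co.NL.main_concrete hn he F X hX (fun v hv hvX => ?_)
  rcases hF v hv hvX with ⟨h1, p, hp, hpx⟩ | ⟨h1, h2⟩ | ⟨q, L, h, ⟨p, hp, hpx⟩, ⟨r, hr, hrx⟩, hx⟩ |
    ⟨j, hj, L, hL, hq⟩
  · left
    exact Pool.Agent.Work.MP_39d092_co.NL.InU.self 3 (Or.inr ⟨by omega, rfl⟩)
      (Pool.Agent.Work.MP_39d092_co.NL.deg_of_poly p hp _ hpx)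
  · left
    subst h1
    exact Pool.Agent.Work.MP_39d092_co.NL.InU.self 5 (Or.inl ⟨by omega, rfl⟩)
      (Pool.Agent.Work.MP_39d092_co.NL.deg_of_sum_zero _ h2)
  · left
    exact ⟨7, 5, L, h, q, Or.inl ⟨le_rfl, rfl⟩, Pool.Agent.Work.MP_39d092_co.NL.deg_of_poly r hr _ hrx,
      Pool.Agent.Work.MP_39d092_co.NL.deg_of_poly p hp _ hpx, hx⟩
  · choose g hg1 hg2 using hq
    refine Pool.Agent.Work.MP_39d092_co.NL.class_of_pieces _ j hj L hL g (fun c => ?_)
      (fun x => hg2 (L x) x rfl)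
    obtain ⟨q, M, h, ⟨p, hp, hpx⟩, ⟨r, hr, hrx⟩, hx⟩ := hg1 c
    exact ⟨q, M, h, Pool.Agent.Work.MP_39d092_co.NL.deg_of_poly p hp _ hpx,
      Pool.Agent.Work.MP_39d092_co.NL.deg_of_poly r hr _ hrx, hx⟩

end Pool.Agent.Results.MP_39d092_co.QuadraticPlusCore
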