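import Pool.Agent.Work.MP_39d092_co.GBGold

/-!
# MP_39d092_co: no better function near a function with bent or semibent components

Let `n` be even and `G : F_2^n → F_2^n` such that every nonzero component is bent or has all its
Walsh coefficients in `{0, 2^(n/2+1), -2^(n/2+1)}`, `G` is differentially `D`-uniform and the set
of nonbent components is not too unevenly distributed over the hyperplanes (parameter `δ`).
If the graph of `F`, moved by an affine bijection of `F_2^n × F_2^n`, has `k` points off the graph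
of `G` and `(396 D + 384) k < δ (2^n - 1)`, then `nl(F) ≤ 2^(n-1) - 2^(n/2)`.
-/

set_option autoImplicit false

namespace Pool.Agent.Results.MP_39d092_co.SemibentBall
open Matrix

/-- the Walsh coefficients of `G` -/
def walsh {n : ℕ} (G : (Fin n → ZMod 2) → (Fin n → ZMod 2)) (v u : Fin n → ZMod 2) : ℤ :=
  ∑ x, if v ⬝ᵥ G x + u ⬝ᵥ x = 0 then 1 else -1

/-- every nonzero component of `G` is bent or semibent -/
def BentSemibent {n : ℕ} (G : (Fin n → ZMod 2) → (Fin n → ZMod 2)) : Prop :=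
  ∀ v : Fin n → ZMod 2, v ≠ 0 → (∀ u, walsh G v u ^ 2 = 2 ^ n) ∨
    ∀ u, walsh G v u ^ 2 = 0 ∨ walsh G v u ^ 2 = 2 ^ (n + 2)

/-- the nonzero components of `G` which are not bent -/
def nonBent {n : ℕ} (G : (Fin n → ZMod 2) → (Fin n → ZMod 2)) : Finset (Fin n → ZMod 2) :=
  Finset.univ.filter (fun v => v ≠ 0 ∧ ¬ ∀ u, walsh G v u ^ 2 = 2 ^ n)

theorem result (n D : ℕ) (hn : Even n) (hn0 : 0 < n) (δ : ℝ)
    (G : (Fin n → ZMod 2) → (Fin n → ZMod 2)) (hG : BentSemibent G)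
    (hD : ∀ e y : Fin n → ZMod 2, e ≠ 0 →
      (Finset.univ.filter (fun x => G x + G (x + e) = y)).card ≤ D)
    (hδ : ∀ y : Fin n → ZMod 2, y ≠ 0 →
      δ * (nonBent G).card ≤ 2 * (((nonBent G).filter (fun v => v ⬝ᵥ y = 1)).card : ℝ) ∧
      6 * (((nonBent G).filter (fun v => v ⬝ᵥ y = 1)).card : ℝ) ≤ (4 - δ) * (nonBent G).card)
    (L : ((Fin n → ZMod 2) × (Fin n → ZMod 2)) ≃+ (Fin n → ZMod 2) × (Fin n → ZMod 2))
    (a b : Fin n → ZMod 2) (F : (Fin n → ZMod 2) → (Fin n → ZMod 2))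
    (hF : (396 * D + 384) * ((Finset.univ.filter (fun x : Fin n → ZMod 2 =>
      (L (x, F x)).2 + b ≠ G ((L (x, F x)).1 + a))).card : ℝ) < δ * (2 ^ n - 1)) :
    ∃ v : Fin n → ZMod 2, v ≠ 0 ∧ ∃ (a : Fin n → ZMod 2) (c : ZMod 2),
      (Finset.univ.filter
        (fun x : Fin n → ZMod 2 => v ⬝ᵥ F x ≠ a ⬝ᵥ x + c)).card ≤ 2 ^ (n - 1) - 2 ^ (n / 2) :=
  Pool.MP_39d092_co.GB.general hn hn0 G D δ hG hD (nonBent G)
    (fun v => by unfold nonBent; rw [Finset.mem_filter]; exact ⟨fun h => h.2, fun h => ⟨Finset.mem_univ _, h⟩⟩)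
    hδ L a b F hF

end Pool.Agent.Results.MP_39d092_co.SemibentBall
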